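import Pool.Agent.Q206.CK.Fin

/-!
# The score variant of `k`-click Clickomania is `W[2]`-hard

The definitions used in the statement are in `Pool.Agent.Q206.CK.Defs` and
`Pool.Agent.H557R2.FptDefs`:
* `Board`, `Click`, `Clicks`, `tiles`: the boards, the clicks (the removal of a group of at least
  two tiles, after which the tiles fall down and the empty columns are deleted), sequences of
  clicks, and the number of tiles of a board;
* `scoreProblem`: given a board and a bound `S`, can at most `k` clicks remove more than `S`
  tiles?  The parameter is `k`; `scoreProblemColours c`: the same for boards with `c` colours;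
* `PProblem`, `FptReduces`, `W1`: parameterized problems, fpt-reducibility (by Turing machines) and
  the class `W[1]`; `pDominatingSet`, `W2`, `W2Hard`: `p-Dominating-Set`, the class `W[2]` and
  hardness for it.
-/

namespace Pool.Agent.Results.MP_e74eef_lc.ScoreWTwoHard

open Pool.Agent.H557R2.Fpt Pool.Agent.Q206.CK

/-- **`k`-Click Score-Variant Clickomania is `W[2]`-hard**, already for boards with six colours;
hence it is not in `W[1]` unless `W[2]` is contained in `W[1]`. -/
theorem result : W2Hard scoreProblem ∧ W2Hard (scoreProblemColours 6) ∧
    (scoreProblem ∈ W1 → W2 ⊆ W1) :=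
  ⟨w2Hard_score, w2Hard_colours, collapse w2Hard_score⟩

end Pool.Agent.Results.MP_e74eef_lc.ScoreWTwoHard
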